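import Mathlib

open scoped ContDiff

namespace Pool.Agent.Lib.MP_e888d6_gt

/-- The standard symplectic form on the real vector space C^3 = R^6. -/
def om (v w : Fin 3 → ℂ) : ℝ := ∑ j, ((v j).re * (w j).im - (v j).im * (w j).re)

/-- Compactly supported Hamiltonian diffeomorphisms of the standard R^6: diffeomorphisms that are
the time-one map of the flow of a smooth compactly supported Hamiltonian on [0,1] x R^6. -/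
def IsHam (φ : (Fin 3 → ℂ) ≃ (Fin 3 → ℂ)) : Prop :=
  ContDiff ℝ ∞ φ ∧ ContDiff ℝ ∞ φ.symm ∧
  ∃ (H : ℝ × (Fin 3 → ℂ) → ℝ) (C : Set (Fin 3 → ℂ)) (Φ : ℝ → (Fin 3 → ℂ) → (Fin 3 → ℂ)),
    ContDiffOn ℝ ∞ H (Set.Icc 0 1 ×ˢ Set.univ) ∧ IsCompact C ∧
    (∀ t ∈ Set.Icc (0 : ℝ) 1, ∀ x ∉ C, H (t, x) = 0) ∧
    (∀ x, Φ 0 x = x ∧ Φ 1 x = φ x) ∧
    ∀ x, ∀ t ∈ Set.Icc (0 : ℝ) 1, ∃ v, HasDerivWithinAt (fun s => Φ s x) v (Set.Icc 0 1) t ∧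
      ∀ w, om v w = fderiv ℝ (fun y => H (t, y)) (Φ t x) w

end Pool.Agent.Lib.MP_e888d6_gt
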