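import Pool.Agent.Lib.MP_e888d6_gt.Symp

open scoped ContDiff Topology ComplexConjugate
open Set Filter

namespace Pool.Agent.Lib.MP_e888d6_gt

/-- The Lagrangian product torus. -/
def Tor : Set V := {z | ∀ j, ‖z j‖ = 1}

lemma isCompact_Tor : IsCompact Tor := by
  have : Tor = Set.pi univ (fun _ : Fin 3 => Metric.sphere (0 : ℂ) 1) := by
    ext z; simp [Tor]
  rw [this]
  exact isCompact_univ_pi fun _ => isCompact_sphere _ _

/-- Tangent vectors of the torus. -/
noncomputable def Tv (z : V) (k : Fin 3) : V := Pi.single k (Complex.I * z k)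

/-- The closeness condition. -/
def Close (z y : V) (A : V →L[ℝ] V) : Prop :=
  (∀ j, 0 < (y j * conj (z j)).re) ∧
  ∀ j k, |(conj (y j) * A (Tv z k) j).im - (if j = k then 1 else 0) * ‖y j‖ ^ 2| < ‖y j‖ ^ 2 / 3

lemma diag_dom (a : Fin 3 → ℝ) (b : Fin 3 → Fin 3 → ℝ)
    (hb : ∀ j k, |b j k - (if j = k then 1 else 0)| < 1 / 3)
    (h : ∀ k, ∑ j, a j * b j k = 0) : ∀ j, a j = 0 := by
  obtain ⟨k, -, hk⟩ := Finset.exists_max_image Finset.univ (fun j => |a j|) Finset.univ_nonempty
  by_contra hne
  push Not at hne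
  obtain ⟨i, hi⟩ := hne
  have hpos : 0 < |a k| := lt_of_lt_of_le (abs_pos.2 hi) (hk i (Finset.mem_univ _))
  have e : a k = - ∑ j, a j * (b j k - (if j = k then 1 else 0)) := by
    simp only [mul_sub, Finset.sum_sub_distrib, h k]
    simp
  have hle : |a k| ≤ ∑ j, |a k| * |b j k - (if j = k then 1 else 0)| := by
    conv_lhs => rw [e, abs_neg]
    refine (Finset.abs_sum_le_sum_abs _ _).trans (Finset.sum_le_sum fun j _ => ?_)
    rw [abs_mul]
    exact mul_le_mul_of_nonneg_right (hk j (Finset.mem_univ _)) (abs_nonneg _)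
  have hlt : ∑ j, |a k| * |b j k - (if j = k then 1 else 0)| < ∑ _j : Fin 3, |a k| * (1 / 3) :=
    Finset.sum_lt_sum_of_nonempty Finset.univ_nonempty fun j _ =>
      mul_lt_mul_of_pos_left (hb j k) hpos
  simp only [Finset.sum_const, Finset.card_univ, Fintype.card_fin, nsmul_eq_mul] at hlt
  push_cast at hlt
  linarith

lemma exists_inter {χ : V → V} (hχ : ContDiff ℝ 2 χ) (hs : IsSymp χ)
    (hc : ∀ z ∈ Tor, Close z (χ z) (fderiv ℝ χ z)) : ∃ z ∈ Tor, χ z ∈ Tor := by
  obtain ⟨g, hg⟩ := exists_primitive hχ hs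
  have hd : Differentiable ℝ χ := hχ.differentiable (by norm_num)
  set G : V → ℝ := fun z => g z - ∑ j, (Complex.log (χ z j * conj (z j))).im with hG
  have hslit : ∀ z ∈ Tor, ∀ j, χ z j * conj (z j) ∈ Complex.slitPlane :=
    fun z hz j => Or.inl ((hc z hz).1 j)
  have hGc : ContinuousOn G Tor := by
    intro z hz
    refine ContinuousAt.continuousWithinAt ?_
    refine (hg z).continuousAt.sub (tendsto_finsetSum _ fun j _ => ?_)
    refine Complex.continuous_im.continuousAt.tendsto.comp ?_
    refine ContinuousAt.clog ?_ (hslit z hz j)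
    have := hd.continuous
    fun_prop
  obtain ⟨z, hz, hmax⟩ := isCompact_Tor.exists_isMaxOn ⟨fun _ => 1, fun _ => by simp⟩ hGc
  refine ⟨z, hz, ?_⟩
  have hy0 : ∀ j, χ z j ≠ 0 := by
    intro j h0
    have := (hc z hz).1 j
    rw [h0] at this; simp at this
  have hz0 : ∀ j, z j ≠ 0 := by
    intro j h0
    have := hz j
    rw [h0] at this; simp at this
  have hN : ∀ j, 0 < ‖χ z j‖ ^ 2 := fun j => by have := norm_pos_iff.2 (hy0 j); positivity
  have main : ∀ k, ∑ j, (‖χ z j‖ ^ 2 - 1) *
      ((conj (χ z j) * fderiv ℝ χ z (Tv z k) j).im / ‖χ z j‖ ^ 2) = 0 := by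
    intro k
    let c : ℝ → V := fun s => Function.update z k (Complex.exp (s * Complex.I) * z k)
    have hc0 : c 0 = z := by simp [c]
    have hcT : ∀ s, c s ∈ Tor := by
      intro s j
      by_cases hj : j = k
      · subst hj; simp [c, hz j]
      · simp [c, Function.update_of_ne hj, hz j]
    have hcd : HasDerivAt c (Tv z k) 0 := by
      rw [hasDerivAt_pi]
      intro j
      by_cases hj : j = k
      · subst hj
        simp only [c, Function.update_self, Tv, Pi.single_eq_same]
        have h1 : HasDerivAt (fun s : ℝ => (s : ℂ) * Complex.I) (1 * Complex.I) 0 :=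
          (Complex.ofRealCLM.hasDerivAt (x := 0)).mul_const Complex.I
        have h2 := (h1.cexp).mul_const (z j)
        simpa using h2
      · simp only [c, Function.update_of_ne hj, Tv, Pi.single_eq_of_ne hj]
        exact hasDerivAt_const _ _
    have hχc : HasDerivAt (fun s => χ (c s)) (fderiv ℝ χ z (Tv z k)) 0 := by
      have := (hd (c 0)).hasFDerivAt.comp_hasDerivAt 0 hcd
      rwa [hc0] at this
    have hgc : HasDerivAt (fun s => g (c s))
        (((omL (χ z)).comp (fderiv ℝ χ z) - omL z) (Tv z k)) 0 := by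
      have := (hg (c 0)).comp_hasDerivAt 0 hcd
      rwa [hc0] at this
    have hlog : ∀ j, HasDerivAt (fun s => (Complex.log (χ (c s) j * conj (c s j))).im)
        (((fderiv ℝ χ z (Tv z k) j * conj (z j) + χ z j * conj (Tv z k j)) /
          (χ z j * conj (z j))).im) 0 := by
      intro j
      have h1 : HasDerivAt (fun s => χ (c s) j) (fderiv ℝ χ z (Tv z k) j) 0 :=
        hasDerivAt_pi.1 hχc j
      have h2 : HasDerivAt (fun s => conj (c s j)) (conj (Tv z k j)) 0 :=
        (Complex.conjCLE : ℂ →L[ℝ] ℂ).hasFDerivAt.comp_hasDerivAt 0 (hasDerivAt_pi.1 hcd j)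
      have h3 := (h1.mul h2).clog_real (by simpa [hc0] using hslit z hz j)
      have h4 := Complex.imCLM.hasFDerivAt.comp_hasDerivAt 0 h3
      simpa [hc0, Function.comp_def] using h4
    have hGd := hgc.sub (HasDerivAt.fun_sum (u := Finset.univ) fun j _ => hlog j)
    have hloc : IsLocalMax (fun s => G (c s)) 0 := by
      refine Filter.Eventually.of_forall fun s => ?_
      simp only [hc0]
      exact hmax (hcT s)
    have h0 := hloc.hasDerivAt_eq_zero hGd
    have e1 : om z (Tv z k) = 1 := by
      rw [om, Finset.sum_eq_single k]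
      · have := hz k
        have h2 : ‖z k‖ ^ 2 = 1 := by rw [this]; norm_num
        rw [Complex.sq_norm, Complex.normSq_apply] at h2
        simp [Tv]; linarith
      · intro b _ hb; simp [Tv, Pi.single_eq_of_ne hb]
      · simp
    have e2 : ∀ j, ((fderiv ℝ χ z (Tv z k) j * conj (z j) + χ z j * conj (Tv z k j)) /
          (χ z j * conj (z j))).im =
        (conj (χ z j) * fderiv ℝ χ z (Tv z k) j).im / ‖χ z j‖ ^ 2 - (if j = k then 1 else 0) := by
      intro j
      have hcz : conj (z j) ≠ 0 := by simpa using hz0 j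
      have hT : conj (Tv z k j) = - Complex.I * (if j = k then 1 else 0) * conj (z j) := by
        by_cases hj : j = k
        · subst hj; simp [Tv]
        · simp [Tv, hj]
      have hq : (fderiv ℝ χ z (Tv z k) j * conj (z j) + χ z j * conj (Tv z k j)) /
          (χ z j * conj (z j)) = (conj (χ z j) * fderiv ℝ χ z (Tv z k) j) / ((‖χ z j‖ ^ 2 : ℝ) : ℂ)
            - Complex.I * (if j = k then 1 else 0) := by
        rw [hT, Complex.sq_norm, Complex.normSq_eq_conj_mul_self]
        have hcy : conj (χ z j) ≠ 0 := by simpa using hy0 j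
        have := hy0 j
        field_simp
        ring
      rw [hq, Complex.sub_im, Complex.div_ofReal_im]
      by_cases hj : j = k <;> simp [hj]
    have e3 : om (χ z) (fderiv ℝ χ z (Tv z k)) =
        ∑ j, (conj (χ z j) * fderiv ℝ χ z (Tv z k) j).im := by
      simp only [om]
      refine Finset.sum_congr rfl fun j _ => ?_
      simp; ring
    simp only [sub_apply, ContinuousLinearMap.comp_apply, omL_apply, e1, e2, e3,
      Finset.sum_sub_distrib, Finset.sum_ite_eq', Finset.mem_univ, if_true] at h0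
    have e4 : ∀ j, (‖χ z j‖ ^ 2 - 1) * ((conj (χ z j) * fderiv ℝ χ z (Tv z k) j).im / ‖χ z j‖ ^ 2)
        = (conj (χ z j) * fderiv ℝ χ z (Tv z k) j).im -
          (conj (χ z j) * fderiv ℝ χ z (Tv z k) j).im / ‖χ z j‖ ^ 2 := by
      intro j
      have := (hN j).ne'
      generalize ‖χ z j‖ ^ 2 = N at this ⊢
      field_simp
    simp only [e4, Finset.sum_sub_distrib]
    linarith
  have := diag_dom (fun j => ‖χ z j‖ ^ 2 - 1)
    (fun j k => (conj (χ z j) * fderiv ℝ χ z (Tv z k) j).im / ‖χ z j‖ ^ 2) (by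
      intro j k
      have h1 := (hc z hz).2 j k
      have h2 := hN j
      have : (conj (χ z j) * fderiv ℝ χ z (Tv z k) j).im / ‖χ z j‖ ^ 2 - (if j = k then 1 else 0)
          = ((conj (χ z j) * fderiv ℝ χ z (Tv z k) j).im -
            (if j = k then 1 else 0) * ‖χ z j‖ ^ 2) / ‖χ z j‖ ^ 2 := by
        rw [sub_div, mul_div_cancel_right₀ _ h2.ne']
      rw [this, abs_div, abs_of_pos h2, div_lt_iff₀ h2]
      linarith) main
  intro j
  have h1 : ‖χ z j‖ ^ 2 = 1 := by have := this j; linarith
  have h2 := norm_nonneg (χ z j)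
  nlinarith

lemma exists_accum {P X : Type*} [TopologicalSpace X] [SecondCountableTopology X]
    [Uncountable P] (f : P → X) : ∃ a, ∀ U, IsOpen U → f a ∈ U → ∃ b, b ≠ a ∧ f b ∈ U := by
  by_contra h
  push Not at h
  have h2 : ∀ a, ∃ B ∈ TopologicalSpace.countableBasis X, f a ∈ B ∧ ∀ b, b ≠ a → f b ∉ B := by
    intro a
    obtain ⟨U, hU, ha, hb⟩ := h a
    obtain ⟨B, hB, haB, hBU⟩ :=
      (TopologicalSpace.isBasis_countableBasis X).exists_subset_of_mem_open ha hU
    exact ⟨B, hB, haB, fun b hba hbB => hb b hba (hBU hbB)⟩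
  choose B hB haB hb using h2
  have : Countable (TopologicalSpace.countableBasis X) :=
    (TopologicalSpace.countable_countableBasis X).to_subtype
  have hinj : Function.Injective fun a => (⟨B a, hB a⟩ : TopologicalSpace.countableBasis X) := by
    intro a b hab
    have hab' : B a = B b := congrArg Subtype.val hab
    by_contra hne
    exact hb b a hne (hab' ▸ haB a)
  exact not_countable hinj.countable

/-- Packings of the torus by symplectomorphisms are countable. -/
theorem countable_of_disjoint {P : Type*} (φ : P → V ≃ V) (h1 : ∀ a, ContDiff ℝ 2 (φ a))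
    (h2 : ∀ a, ContDiff ℝ 2 (φ a).symm) (hs : ∀ a, IsSymp (φ a))
    (hdis : ∀ a b, a ≠ b → Disjoint (φ a '' Tor) (φ b '' Tor)) : Countable P := by
  by_contra hP
  have : Uncountable P := not_countable_iff.1 hP
  have : CompactSpace Tor := isCompact_iff_compactSpace.1 isCompact_Tor
  let f : P → C(Tor, V × V × (V →L[ℝ] V)) := fun a =>
    ⟨fun z => (z.1, φ a z.1, fderiv ℝ (φ a) z.1), by
      have := (h1 a).continuous
      have := (h1 a).continuous_fderiv (by norm_num)
      fun_prop⟩
  obtain ⟨a, ha⟩ := exists_accum f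
  let W : Set (V × V × (V →L[ℝ] V)) :=
    {p | Close p.1 ((φ a).symm p.2.1) ((fderiv ℝ (φ a).symm p.2.1).comp p.2.2)}
  have hτ := (h2 a).continuous
  have hτ' := (h2 a).continuous_fderiv (by norm_num)
  have hT : ∀ k, Continuous fun z : V => Tv z k := by
    intro k
    exact (continuous_single (A := fun _ : Fin 3 => ℂ) k).comp (by fun_prop)
  have hW : IsOpen W := by
    simp only [W, Close, ofPred_and, ofPred_forall]
    refine IsOpen.inter (isOpen_iInter_of_finite fun j => isOpen_lt continuous_const ?_)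
      (isOpen_iInter_of_finite fun j => isOpen_iInter_of_finite fun k => isOpen_lt ?_ ?_)
    · fun_prop
    · have := hT k
      simp only [ContinuousLinearMap.comp_apply]
      fun_prop
    · fun_prop
  have hda : ∀ b x, HasFDerivAt (φ b) (fderiv ℝ (φ b) x) x := fun b x =>
    ((h1 b).differentiable (by norm_num) x).hasFDerivAt
  have hdτ : ∀ x, HasFDerivAt (φ a).symm (fderiv ℝ (φ a).symm x) x := fun x =>
    ((h2 a).differentiable (by norm_num) x).hasFDerivAt
  obtain ⟨b, hba, hb⟩ := ha {g | MapsTo g univ W}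
    (ContinuousMap.isOpen_setOfPred_mapsTo isCompact_univ hW) (by
      intro z _
      have hid : (fderiv ℝ (φ a).symm (φ a z.1)).comp (fderiv ℝ (φ a) z.1) =
          ContinuousLinearMap.id ℝ V := by
        have h3 := (hdτ (φ a z.1)).comp z.1 (hda a z.1)
        have h4 : ((φ a).symm ∘ φ a : V → V) = id := by ext1 x; simp
        rw [h4] at h3
        exact h3.unique (hasFDerivAt_id _)
      change Close z.1 ((φ a).symm (φ a z.1)) _
      change Close z.1 _ ((fderiv ℝ (φ a).symm (φ a z.1)).comp (fderiv ℝ (φ a) z.1))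
      rw [hid, Equiv.symm_apply_apply]
      have hz := z.2
      refine ⟨fun j => ?_, fun j k => ?_⟩
      · rw [Complex.mul_conj, Complex.normSq_eq_norm_sq, hz j]; simp
      · rw [hz j]
        by_cases hj : j = k
        · subst hj
          have h5 : conj (z.1 j) * (Complex.I * z.1 j) = Complex.I := by
            rw [mul_left_comm, Complex.conj_mul', hz j]; simp
          simp [Tv, h5]
        · simp [Tv, hj])
  let χ : V → V := (φ a).symm ∘ φ b
  have hχ : ContDiff ℝ 2 χ := (h2 a).comp (h1 b)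
  have hχd : ∀ x, fderiv ℝ χ x = (fderiv ℝ (φ a).symm (φ b x)).comp (fderiv ℝ (φ b) x) :=
    fun x => ((hdτ (φ b x)).comp x (hda b x)).fderiv
  have hχs : IsSymp χ := by
    intro x u w
    have h3 := (hda a (χ x)).comp x (hχ.differentiable (by norm_num) x).hasFDerivAt
    have h4 : (φ a ∘ χ : V → V) = φ b := by ext1 x; simp [χ]
    rw [h4] at h3
    have h5 := h3.unique (hda b x)
    rw [← hs a (χ x), ← hs b x u w, ← h5]
    rfl
  obtain ⟨z, hz, hz'⟩ := exists_inter hχ hχs (by
    intro z hz
    rw [hχd]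
    exact hb (mem_univ (⟨z, hz⟩ : Tor)))
  refine Set.disjoint_left.1 (hdis a b hba.symm) ⟨χ z, hz', rfl⟩ ⟨z, hz, ?_⟩
  simp [χ]

end Pool.Agent.Lib.MP_e888d6_gt
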