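import Pool.Agent.Lib.MP_e888d6_gt.Ham
import Pool.Agent.Lib.MP_e888d6_gt.Inter

open scoped ContDiff Topology
open Set Filter

namespace Pool.Agent.Lib.MP_e888d6_gt

noncomputable def xc (j : Fin 3) : V →L[ℝ] ℝ := Complex.reCLM.comp (ContinuousLinearMap.proj j)
noncomputable def yc (j : Fin 3) : V →L[ℝ] ℝ := Complex.imCLM.comp (ContinuousLinearMap.proj j)

@[simp] lemma xc_apply (j : Fin 3) (z : V) : xc j z = (z j).re := rfl
@[simp] lemma yc_apply (j : Fin 3) (z : V) : yc j z = (z j).im := rfl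

noncomputable def hh (z : V) : ℝ := (xc 1 z * xc 1 z + yc 1 z * yc 1 z - 1) * xc 2 z

noncomputable def FF (z : V) : ℝ × ℝ :=
  ((xc 0 z - hh z) * (xc 0 z - hh z) + yc 0 z * yc 0 z - 1,
    xc 1 z * xc 1 z + yc 1 z * yc 1 z + (xc 2 z * xc 2 z + yc 2 z * yc 2 z) - 2)

lemma contDiff_hh : ContDiff ℝ ∞ hh := by
  unfold hh; fun_prop

lemma contDiff_FF : ContDiff ℝ ∞ FF := by
  have := contDiff_hh
  unfold FF; fun_prop

lemma fderiv_FF (z v : V) : fderiv ℝ FF z v =
    (2 * ((z 0).re - hh z) * ((v 0).re -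
        (2 * ((z 1).re * (v 1).re + (z 1).im * (v 1).im) * (z 2).re +
          ((z 1).re * (z 1).re + (z 1).im * (z 1).im - 1) * (v 2).re)) + 2 * (z 0).im * (v 0).im,
      2 * ((z 1).re * (v 1).re + (z 1).im * (v 1).im + (z 2).re * (v 2).re +
        (z 2).im * (v 2).im)) := by
  have hx := fun j => (xc j).hasFDerivAt (x := z)
  have hy := fun j => (yc j).hasFDerivAt (x := z)
  have h1 := (((((hx 1).mul (hx 1)).add ((hy 1).mul (hy 1))).sub_const 1).mul (hx 2))
  have h2 := (hx 0).sub h1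
  have h3 := ((h2.mul h2).add ((hy 0).mul (hy 0))).sub_const 1
  have h4 := ((((hx 1).mul (hx 1)).add ((hy 1).mul (hy 1))).add
    (((hx 2).mul (hx 2)).add ((hy 2).mul (hy 2)))).sub_const 2
  have h5 : HasFDerivAt FF _ z := h3.prodMk h4
  rw [h5.fderiv]
  simp [hh]
  constructor <;> ring

noncomputable def par (p : ℂ × EuclideanSpace ℝ (Fin 4)) : V :=
  ![p.1 + (((p.2 0 * p.2 0 + p.2 1 * p.2 1 - 1) * p.2 2 : ℝ) : ℂ), ⟨p.2 0, p.2 1⟩, ⟨p.2 2, p.2 3⟩]

lemma continuous_par : Continuous par := by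
  refine continuous_pi fun j => ?_
  have e : ∀ a b : ℝ, (⟨a, b⟩ : ℂ) = a + b * Complex.I := fun a b => by
    apply Complex.ext <;> simp
  fin_cases j
  · simp only [par]; simp; fun_prop
  · simp only [par, e]; simp; fun_prop
  · simp only [par, e]; simp; fun_prop

lemma level_eq : FF ⁻¹' {0} =
    par '' (Metric.sphere (0 : ℂ) 1 ×ˢ Metric.sphere (0 : EuclideanSpace ℝ (Fin 4)) √2) := by
  ext z
  simp only [mem_preimage, mem_singleton_iff, FF, Prod.mk_eq_zero, xc_apply, yc_apply]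
  constructor
  · rintro ⟨h1, h2⟩
    refine ⟨(z 0 - (hh z : ℝ), !₂[(z 1).re, (z 1).im, (z 2).re, (z 2).im]), ⟨?_, ?_⟩, ?_⟩
    · simp only [mem_sphere_iff_norm, sub_zero]
      have : ‖z 0 - (hh z : ℝ)‖ ^ 2 = 1 := by
        rw [Complex.sq_norm, Complex.normSq_apply]; simp; linarith
      have h0 := norm_nonneg (z 0 - (hh z : ℝ))
      nlinarith
    · simp only [mem_sphere_iff_norm, sub_zero, EuclideanSpace.norm_eq, Fin.sum_univ_four]
      congr 1
      simp
      linarith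
    · ext j
      fin_cases j
      · simp [par, hh]
      · simp [par]
      · simp [par]
  · rintro ⟨⟨a, e⟩, ⟨ha, he⟩, rfl⟩
    simp only [mem_sphere_iff_norm, sub_zero] at ha he
    have ha2 : ‖a‖ ^ 2 = 1 := by rw [ha]; norm_num
    rw [Complex.sq_norm, Complex.normSq_apply] at ha2
    have he2 : ‖e‖ ^ 2 = 2 := by rw [he]; simp
    rw [EuclideanSpace.norm_sq_eq, Fin.sum_univ_four] at he2
    simp only [Real.norm_eq_abs, sq_abs] at he2
    constructor
    · simp [par, hh]; linarith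
    · simp [par]; linarith

lemma isCompact_level : IsCompact (FF ⁻¹' {0}) := by
  rw [level_eq]
  exact ((isCompact_sphere _ _).prod (isCompact_sphere _ _)).image continuous_par

lemma isConnected_level : IsConnected (FF ⁻¹' {0}) := by
  rw [level_eq]
  refine ((isConnected_sphere ?_ _ zero_le_one).prod
    (isConnected_sphere ?_ _ (Real.sqrt_nonneg 2))).image _ continuous_par.continuousOn
  · simp
  · rw [← Module.finrank_eq_rank]; simp

lemma Tor_subset : Tor ⊆ FF ⁻¹' {0} := by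
  intro z hz
  have h : ∀ j, (z j).re * (z j).re + (z j).im * (z j).im = 1 := by
    intro j
    have : ‖z j‖ ^ 2 = 1 := by rw [hz j]; norm_num
    rwa [Complex.sq_norm, Complex.normSq_apply] at this
  have h0 : hh z = 0 := by simp [hh, h 1]
  simp only [mem_preimage, mem_singleton_iff, FF, Prod.mk_eq_zero, xc_apply, yc_apply, h0]
  constructor
  · have := h 0; linarith
  · have := h 1; have := h 2; linarith

noncomputable def nu (z : V) : V := Pi.single 0 (z 0 - (hh z : ℝ))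

lemma contDiff_nu : ContDiff ℝ ∞ nu := by
  have h1 : ContDiff ℝ ∞ fun z : V => z 0 - ((hh z : ℝ) : ℂ) :=
    (contDiff_apply ℝ ℂ 0).sub (Complex.ofRealCLM.contDiff.comp contDiff_hh)
  exact (ContinuousLinearMap.single ℝ (fun _ : Fin 3 => ℂ) 0).contDiff.comp h1

lemma fderiv_nu {z : V} (hz : z ∈ FF ⁻¹' {0}) : fderiv ℝ FF z (nu z) = (2, 0) := by
  simp only [mem_preimage, mem_singleton_iff, FF, Prod.mk_eq_zero, xc_apply, yc_apply] at hz
  rw [fderiv_FF]
  simp [nu]
  linarith [hz.1]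

lemma surj {z : V} (hz : z ∈ FF ⁻¹' {0}) : Function.Surjective (fderiv ℝ FF z) := by
  have h1 := fderiv_nu hz
  have h2 : (fderiv ℝ FF z ![0, z 1, z 2]).2 = 4 := by
    simp only [mem_preimage, mem_singleton_iff, FF, Prod.mk_eq_zero, xc_apply, yc_apply] at hz
    rw [fderiv_FF]
    simp
    linarith [hz.2]
  rintro ⟨a, b⟩
  refine ⟨((a - b / 4 * (fderiv ℝ FF z ![0, z 1, z 2]).1) / 2) • nu z + (b / 4) • ![0, z 1, z 2],
    ?_⟩
  rw [map_add, map_smul, map_smul, h1]
  ext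
  · simp
  · simp [h2]

lemma not_coiso : ∃ x ∈ FF ⁻¹' {0}, ∃ v, (∀ w, fderiv ℝ FF x w = 0 → om v w = 0) ∧
    fderiv ℝ FF x v ≠ 0 := by
  refine ⟨![0, 0, ⟨1, 1⟩], ?_, ![0, 0, ⟨1, -1⟩], ?_, ?_⟩
  · simp [FF, hh]; norm_num
  · intro w hw
    rw [fderiv_FF] at hw
    simp [hh] at hw
    simp [om, Fin.sum_univ_three]
    linarith [hw.2]
  · rw [fderiv_FF]
    simp [hh]

lemma packing_countable (P : Set (Set V)) (hP : ∀ A ∈ P, ∃ φ, IsHam φ ∧ A = φ '' (FF ⁻¹' {0}))
    (hd : P.PairwiseDisjoint id) : P.Countable := by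
  choose φ hφ hA using hP
  refine countable_of_disjoint (P := P) (fun a => φ a.1 a.2)
    (fun a => (hφ a.1 a.2).1.of_le (by norm_cast))
    (fun a => (hφ a.1 a.2).2.1.of_le (by norm_cast)) (fun a => (hφ a.1 a.2).isSymp) ?_
  intro a b hab
  have := hd a.2 b.2 (fun h => hab (Subtype.ext h))
  refine Disjoint.mono (image_mono Tor_subset) (image_mono Tor_subset) ?_
  rw [← hA a.1 a.2, ← hA b.1 b.2]
  exact this

end Pool.Agent.Lib.MP_e888d6_gt
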