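import Pool.Agent.Lib.MP_e888d6_gt.Symp

open scoped ContDiff Topology
open Set Filter

namespace Pool.Agent.Lib.MP_e888d6_gt

lemma taylor_bound {E F : Type*} [NormedAddCommGroup E] [NormedSpace ℝ E]
    [NormedAddCommGroup F] [NormedSpace ℝ F] {f : E → F} (hf : Differentiable ℝ f) {K : NNReal}
    (hK : LipschitzWith K (fderiv ℝ f)) (p q : E) :
    ‖f q - f p - fderiv ℝ f p (q - p)‖ ≤ (K * ‖q - p‖) * ‖q - p‖ := by
  refine (convex_closedBall p ‖q - p‖).norm_image_sub_le_of_norm_hasFDerivWithin_le'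
    (f' := fderiv ℝ f) (fun x _ => (hf x).hasFDerivAt.hasFDerivWithinAt) ?_
    (Metric.mem_closedBall_self (norm_nonneg _)) (by simp [dist_eq_norm])
  intro x hx
  refine (hK.norm_sub_le x p).trans ?_
  rw [mem_closedBall_iff_norm] at hx
  exact mul_le_mul_of_nonneg_left hx K.2

lemma hn (s : ℝ) (a b : V) : ((s, a) : ℝ × V) - (s, b) = (0, a - b) := by simp

lemma hn2 (a : V) : ‖((0, a) : ℝ × V)‖ = ‖a‖ := by simp [Prod.norm_def]

lemma alg_bound (E1 E2 : ℝ × V →L[ℝ] ℝ) (B : ℝ × V →L[ℝ] ℝ × V →L[ℝ] ℝ) (a1 a2 : V) (K R : ℝ)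
    (hK : 0 ≤ K) (ha1 : ‖a1‖ ≤ R) (ha2 : ‖a2‖ ≤ R) (hsym : B (0, a1) (0, a2) = B (0, a2) (0, a1))
    (t1 : ‖E1 - B (0, a1)‖ ≤ (K * ‖a1‖) * ‖a1‖) (t2 : ‖E2 - B (0, a2)‖ ≤ (K * ‖a2‖) * ‖a2‖) :
    ‖E1 (0, a2) + - E2 (0, a1)‖ ≤ 2 * K * R ^ 3 := by
  have hR0 : 0 ≤ R := (norm_nonneg _).trans ha1
  have e : E1 (0, a2) + - E2 (0, a1) =
      (E1 - B (0, a1)) (0, a2) - (E2 - B (0, a2)) (0, a1) := by
    simp only [sub_apply]; rw [hsym]; ring
  rw [e]
  have b1 : ‖(E1 - B (0, a1)) (0, a2)‖ ≤ K * R * R * R := by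
    refine (ContinuousLinearMap.le_opNorm _ _).trans ?_
    rw [hn2]
    refine mul_le_mul (t1.trans ?_) ha2 (norm_nonneg _) (by positivity)
    exact mul_le_mul (mul_le_mul_of_nonneg_left ha1 hK) ha1 (norm_nonneg _) (by positivity)
  have b2 : ‖(E2 - B (0, a2)) (0, a1)‖ ≤ K * R * R * R := by
    refine (ContinuousLinearMap.le_opNorm _ _).trans ?_
    rw [hn2]
    refine mul_le_mul (t2.trans ?_) ha1 (norm_nonneg _) (by positivity)
    exact mul_le_mul (mul_le_mul_of_nonneg_left ha2 hK) ha2 (norm_nonneg _) (by positivity)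
  refine (norm_sub_le _ _).trans ?_
  have : 2 * K * R ^ 3 = K * R * R * R + K * R * R * R := by ring
  linarith

lemma gron {D : ℝ × V → (ℝ × V →L[ℝ] ℝ)} {K1 : NNReal} (hK1 : LipschitzWith K1 D)
    {Ψ v : ℝ → V → V} (hΨ : ∀ x s, HasDerivAt (fun s => Ψ s x) (v s x) s)
    (hom : ∀ x y s w, om (v s y - v s x) w = (D (s, Ψ s y) - D (s, Ψ s x)) (0, w))
    (h0 : ∀ x, Ψ 0 x = x) (x y : V) :
    ∀ s ∈ Icc (0 : ℝ) 1, ‖Ψ s y - Ψ s x‖ ≤ ‖y - x‖ * Real.exp K1 := by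
  intro s hs
  have h := norm_le_gronwallBound_of_norm_deriv_right_le (f := fun s => Ψ s y - Ψ s x)
    (f' := fun s => v s y - v s x) (δ := ‖y - x‖) (K := K1) (ε := 0) (a := 0) (b := 1)
    (fun s _ => ((hΨ y s).sub (hΨ x s)).continuousAt.continuousWithinAt)
    (fun s _ => ((hΨ y s).sub (hΨ x s)).hasDerivWithinAt) (by simp [h0]) (by
      intro s _
      refine (norm_le_of_om _).trans ?_
      rw [add_zero]
      refine ContinuousLinearMap.opNorm_le_bound _ (by positivity) fun w => ?_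
      rw [omL_apply, hom]
      refine (ContinuousLinearMap.le_opNorm _ _).trans ?_
      rw [hn2]
      refine mul_le_mul_of_nonneg_right ?_ (norm_nonneg _)
      refine (hK1.norm_sub_le _ _).trans ?_
      rw [hn, hn2]) s hs
  rw [gronwallBound_ε0] at h
  refine h.trans (mul_le_mul_of_nonneg_left (Real.exp_le_exp.2 ?_) (norm_nonneg _))
  have : (0 : ℝ) ≤ K1 := K1.2
  nlinarith [hs.1, hs.2]

lemma symp_of_est {φ : V → V} (hd : Differentiable ℝ φ) (c e : ℝ)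
    (est : ∀ x y1 y2 : V, ∀ r : ℝ, ‖y1 - x‖ ≤ r → ‖y2 - x‖ ≤ r →
      ‖omL (φ y1 - φ x) (φ y2 - φ x) - omL (y1 - x) (y2 - x)‖ ≤ c * (r * e) ^ 3) :
    IsSymp φ := by
  intro x u w
  have slope : ∀ w : V, Tendsto (fun t : ℝ => t⁻¹ • (φ (x + t • w) - φ x)) (𝓝[≠] 0)
      (𝓝 (fderiv ℝ φ x w)) := by
    intro w
    have h1 : HasDerivAt (fun t : ℝ => x + t • w) w 0 := by
      simpa using ((hasDerivAt_id (0 : ℝ)).smul_const w).const_add x
    have h2 : HasFDerivAt φ (fderiv ℝ φ x) (x + (0 : ℝ) • w) := by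
      simpa using (hd x).hasFDerivAt
    have h3 := hasDerivAt_iff_tendsto_slope_zero.1 (h2.comp_hasDerivAt (0 : ℝ) h1)
    simpa using h3
  have lim1 : Tendsto (fun t : ℝ => omL (t⁻¹ • (φ (x + t • u) - φ x))
      (t⁻¹ • (φ (x + t • w) - φ x))) (𝓝[≠] 0)
      (𝓝 (omL (fderiv ℝ φ x u) (fderiv ℝ φ x w))) := by
    have hc : Continuous fun p : V × V => omL p.1 p.2 := omL.continuous₂
    have h1 := (slope u).prodMk_nhds (slope w)
    have h2 := (hc.tendsto (fderiv ℝ φ x u, fderiv ℝ φ x w)).comp h1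
    exact h2
  have lim2 : Tendsto (fun t : ℝ => omL (t⁻¹ • (φ (x + t • u) - φ x))
      (t⁻¹ • (φ (x + t • w) - φ x))) (𝓝[≠] 0) (𝓝 (omL u w)) := by
    rw [tendsto_iff_norm_sub_tendsto_zero]
    have hb : Tendsto (fun t : ℝ => c * (max ‖u‖ ‖w‖ * e) ^ 3 * |t|) (𝓝[≠] 0) (𝓝 0) := by
      refine Tendsto.mono_left ?_ nhdsWithin_le_nhds
      have : Continuous (fun t : ℝ => c * (max ‖u‖ ‖w‖ * e) ^ 3 * |t|) := by fun_prop
      simpa using this.tendsto 0
    refine squeeze_zero' (Eventually.of_forall fun _ => norm_nonneg _) ?_ hb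
    filter_upwards [self_mem_nhdsWithin] with t ht
    have ht0 : t ≠ 0 := ht
    have hta : 0 < |t| := abs_pos.2 ht0
    have h := est x (x + t • u) (x + t • w) (|t| * max ‖u‖ ‖w‖)
      (by rw [add_sub_cancel_left, norm_smul, Real.norm_eq_abs]
          exact mul_le_mul_of_nonneg_left (le_max_left _ _) hta.le)
      (by rw [add_sub_cancel_left, norm_smul, Real.norm_eq_abs]
          exact mul_le_mul_of_nonneg_left (le_max_right _ _) hta.le)
    rw [add_sub_cancel_left, add_sub_cancel_left] at h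
    have e : omL (t⁻¹ • (φ (x + t • u) - φ x)) (t⁻¹ • (φ (x + t • w) - φ x)) - omL u w
        = (t⁻¹ * t⁻¹) * (omL (φ (x + t • u) - φ x) (φ (x + t • w) - φ x)
          - omL (t • u) (t • w)) := by
      simp only [map_smul, smul_apply, smul_eq_mul]
      field_simp
    rw [e, norm_mul]
    have e2 : ‖t⁻¹ * t⁻¹‖ = (|t| * |t|)⁻¹ := by
      rw [norm_mul, norm_inv, Real.norm_eq_abs, mul_inv]
    rw [e2, inv_mul_le_iff₀ (by positivity)]
    refine h.trans (le_of_eq ?_)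
    ring
  exact tendsto_nhds_unique lim1 lim2

lemma est_of_flow {D : ℝ × V → (ℝ × V →L[ℝ] ℝ)} {K1 K2 : NNReal} (hK1 : LipschitzWith K1 D)
    (hD : Differentiable ℝ D) (hK2 : LipschitzWith K2 (fderiv ℝ D))
    (hsym : ∀ p a b, fderiv ℝ D p a b = fderiv ℝ D p b a)
    {Ψ v : ℝ → V → V} (hΨ : ∀ x s, HasDerivAt (fun s => Ψ s x) (v s x) s)
    (hv : ∀ x s w, om (v s x) w = D (s, Ψ s x) (0, w))
    (h0 : ∀ x, Ψ 0 x = x) (x y1 y2 : V) (r : ℝ) (h1 : ‖y1 - x‖ ≤ r) (h2 : ‖y2 - x‖ ≤ r) :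
    ‖omL (Ψ 1 y1 - Ψ 1 x) (Ψ 1 y2 - Ψ 1 x) - omL (y1 - x) (y2 - x)‖ ≤
        2 * K2 * (r * Real.exp K1) ^ 3 := by
  have hom : ∀ x y s w, om (v s y - v s x) w = (D (s, Ψ s y) - D (s, Ψ s x)) (0, w) := by
    intro x y s w
    rw [← omL_apply, map_sub, sub_apply, sub_apply, omL_apply, omL_apply, hv, hv]
  have hder : ∀ s, HasDerivAt (fun s => omL (Ψ s y1 - Ψ s x) (Ψ s y2 - Ψ s x))
      (omL (v s y1 - v s x) (Ψ s y2 - Ψ s x) + omL (Ψ s y1 - Ψ s x) (v s y2 - v s x)) s := by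
    intro s
    have ha : HasDerivAt (fun s => Ψ s y1 - Ψ s x) (v s y1 - v s x) s := (hΨ y1 s).sub (hΨ x s)
    have hb : HasDerivAt (fun s => Ψ s y2 - Ψ s x) (v s y2 - v s x) s := (hΨ y2 s).sub (hΨ x s)
    have hc : HasDerivAt (fun s => omL (Ψ s y1 - Ψ s x)) (omL (v s y1 - v s x)) s :=
      omL.hasFDerivAt.comp_hasDerivAt s ha
    exact hc.clm_apply hb
  have hbd : ∀ s ∈ Ico (0 : ℝ) 1,
      ‖omL (v s y1 - v s x) (Ψ s y2 - Ψ s x) + omL (Ψ s y1 - Ψ s x) (v s y2 - v s x)‖ ≤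
        2 * K2 * (r * Real.exp K1) ^ 3 := by
    intro s hs
    have hs' : s ∈ Icc (0 : ℝ) 1 := ⟨hs.1, hs.2.le⟩
    have ha1 : ‖Ψ s y1 - Ψ s x‖ ≤ r * Real.exp K1 :=
      (gron hK1 hΨ hom h0 x y1 s hs').trans (mul_le_mul_of_nonneg_right h1 (Real.exp_pos _).le)
    have ha2 : ‖Ψ s y2 - Ψ s x‖ ≤ r * Real.exp K1 :=
      (gron hK1 hΨ hom h0 x y2 s hs').trans (mul_le_mul_of_nonneg_right h2 (Real.exp_pos _).le)
    have t1 := taylor_bound hD hK2 (s, Ψ s x) (s, Ψ s y1)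
    have t2 := taylor_bound hD hK2 (s, Ψ s x) (s, Ψ s y2)
    rw [hn, hn2] at t1 t2
    rw [omL_apply, omL_apply, om_swap (Ψ s y1 - Ψ s x), hom, hom]
    exact alg_bound _ _ _ _ _ _ _ K2.2 ha1 ha2 (hsym _ _ _) t1 t2
  have h := norm_image_sub_le_of_norm_deriv_le_segment_01'
    (fun s _ => (hder s).hasDerivWithinAt) hbd
  simpa only [h0] using h

lemma lip_of_compact {E F : Type*} [NormedAddCommGroup E] [NormedSpace ℝ E]
    [NormedAddCommGroup F] [NormedSpace ℝ F] {G : E → F} (hG : ContDiff ℝ 2 G)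
    (hc : HasCompactSupport G) : ∃ K, LipschitzWith K (fderiv ℝ G) :=
  ContDiff.lipschitzWith_of_hasCompactSupport (hc.fderiv ℝ)
    (hG.fderiv_right (m := 1) (by norm_num)) (by norm_num)

lemma symp_of_flow {G : ℝ × V → ℝ} (hG : ContDiff ℝ ∞ G) (hc : HasCompactSupport G)
    {Ψ v : ℝ → V → V} (hΨ : ∀ x s, HasDerivAt (fun s => Ψ s x) (v s x) s)
    (hv : ∀ x s w, om (v s x) w = fderiv ℝ G (s, Ψ s x) (0, w))
    (h0 : ∀ x, Ψ 0 x = x) (hd : Differentiable ℝ (Ψ 1)) : IsSymp (Ψ 1) := by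
  have hG0 : ContDiff ℝ 2 G := hG.of_le (by norm_cast)
  have hG1 : ContDiff ℝ 2 (fderiv ℝ G) := hG.fderiv_right (m := 2) (by norm_cast)
  have hc1 : HasCompactSupport (fderiv ℝ G) := hc.fderiv ℝ
  obtain ⟨K1, hK1⟩ := lip_of_compact hG0 hc
  obtain ⟨K2, hK2⟩ := lip_of_compact hG1 hc1
  have hsym : ∀ p a b, fderiv ℝ (fderiv ℝ G) p a b = fderiv ℝ (fderiv ℝ G) p b a := by
    intro p a b
    exact (hG0.contDiffAt (x := p)).isSymmSndFDerivAt (by simp) a b
  have hD : Differentiable ℝ (fderiv ℝ G) := hG1.differentiable (by norm_num)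
  refine symp_of_est hd (2 * K2) (Real.exp K1) fun x y1 y2 r h1 h2 => ?_
  exact est_of_flow hK1 hD hK2 hsym hΨ hv h0 x y1 y2 r h1 h2

theorem IsHam.isSymp {φ : V ≃ V} (h : IsHam φ) : IsSymp φ := by
  obtain ⟨hφ, -, H, C, Φ, hH, hC, hH0, hΦ, hode⟩ := h
  set σ := Real.smoothTransition with hσ
  have hσm : ∀ s, σ s ∈ Icc (0 : ℝ) 1 := fun s =>
    ⟨Real.smoothTransition.nonneg s, Real.smoothTransition.le_one s⟩
  have hσc : ContDiff ℝ ∞ σ := Real.smoothTransition.contDiff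
  have hσ' : ContDiff ℝ ∞ (deriv σ) := (contDiff_infty_iff_deriv.1 hσc).2
  have hH' : ContDiff ℝ ∞ fun p : ℝ × V => H (σ p.1, p.2) :=
    hH.comp_contDiff (by fun_prop) fun p => ⟨hσm _, mem_univ _⟩
  let G : ℝ × V → ℝ := fun p => deriv σ p.1 * H (σ p.1, p.2)
  have hG : ContDiff ℝ ∞ G := (hσ'.comp contDiff_fst).mul hH'
  have hGc : HasCompactSupport G := by
    refine HasCompactSupport.intro ((isCompact_Icc (a := (0 : ℝ)) (b := 1)).prod hC) ?_
    rintro ⟨s, x⟩ hp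
    by_cases hx : x ∈ C
    · have hs : s ∉ Icc (0 : ℝ) 1 := fun hs => hp ⟨hs, hx⟩
      have : deriv σ s = 0 := by
        rcases not_and_or.1 hs with h | h
        · have : σ =ᶠ[𝓝 s] fun _ => 0 := by
            filter_upwards [Iio_mem_nhds (not_le.1 h)] with t ht
            exact Real.smoothTransition.zero_of_nonpos (le_of_lt ht)
          rw [this.deriv_eq]; simp
        · have : σ =ᶠ[𝓝 s] fun _ => 1 := by
            filter_upwards [Ioi_mem_nhds (not_le.1 h)] with t ht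
            exact Real.smoothTransition.one_of_one_le (le_of_lt ht)
          rw [this.deriv_eq]; simp
      simp [G, this]
    · simp [G, hH0 _ (hσm s) x hx]
  choose v hv1 hv2 using hode
  have key := symp_of_flow hG hGc (Ψ := fun s x => Φ (σ s) x)
    (v := fun s x => deriv σ s • v x (σ s) (hσm s))
    (fun x s => HasDerivWithinAt.scomp_hasDerivAt (h := σ) s (hv1 x (σ s) (hσm s))
      (hσc.differentiable (by simp) s).hasDerivAt hσm)
    (by
      intro x s w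
      rw [← omL_apply, map_smul, smul_apply, omL_apply, hv2, smul_eq_mul]
      have h1 : HasFDerivAt (fun y : V => G (s, y))
          ((fderiv ℝ G (s, Φ (σ s) x)).comp (ContinuousLinearMap.inr ℝ ℝ V)) (Φ (σ s) x) :=
        (hG.differentiable (by simp) _).hasFDerivAt.comp _ (hasFDerivAt_prodMk_right s _)
      have h2 : DifferentiableAt ℝ (fun y : V => H (σ s, y)) (Φ (σ s) x) :=
        (hH'.differentiable (by simp) (s, Φ (σ s) x)).comp _
          (hasFDerivAt_prodMk_right s _).differentiableAt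
      have h3 := h1.unique (h2.hasFDerivAt.const_mul (deriv σ s))
      have h4 := congrArg (fun L : V →L[ℝ] ℝ => L w) h3
      simpa using h4.symm)
    (by intro x; simp [hσ, (hΦ x).1])
    (by
      have : (fun x => Φ (σ 1) x) = φ := by ext1 x; simp [hσ, (hΦ x).2]
      rw [this]; exact hφ.differentiable (by simp))
  have : (fun x => Φ (σ 1) x) = φ := by ext1 x; simp [hσ, (hΦ x).2]
  rwa [this] at key

end Pool.Agent.Lib.MP_e888d6_gt
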