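import Pool.Agent.Lib.MP_e888d6_gt.Defs

open scoped ContDiff Topology
open Set Filter

namespace Pool.Agent.Lib.MP_e888d6_gt

abbrev V := Fin 3 → ℂ

noncomputable def omL : V →L[ℝ] V →L[ℝ] ℝ :=
  (LinearMap.mk₂ ℝ om
    (by intro a b c; simp only [om, Fin.sum_univ_three, Pi.add_apply, Complex.add_re,
          Complex.add_im]; ring)
    (by intro c a b; simp only [om, Fin.sum_univ_three, Pi.smul_apply, Complex.smul_re,
          Complex.smul_im, smul_eq_mul]; ring)
    (by intro a b c; simp only [om, Fin.sum_univ_three, Pi.add_apply, Complex.add_re,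
          Complex.add_im]; ring)
    (by intro c a b; simp only [om, Fin.sum_univ_three, Pi.smul_apply, Complex.smul_re,
          Complex.smul_im, smul_eq_mul]; ring)).toContinuousBilinearMap

@[simp] lemma omL_apply (v w : V) : omL v w = om v w := rfl

lemma om_swap (v w : V) : om v w = - om w v := by
  simp only [om, Fin.sum_univ_three]; ring

def IsSymp (φ : V → V) : Prop :=
  ∀ x u w, om (fderiv ℝ φ x u) (fderiv ℝ φ x w) = om u w

lemma norm_le_of_om (v : V) : ‖v‖ ≤ ‖omL v‖ := by
  refine (pi_norm_le_iff_of_nonneg (norm_nonneg _)).2 fun j => ?_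
  have h1 : omL v (Pi.single j (Complex.I * v j)) = ‖v j‖ ^ 2 := by
    rw [omL_apply, om, Finset.sum_eq_single j]
    · simp [Complex.sq_norm, Complex.normSq_apply]
    · intro b _ hb; simp [Pi.single_eq_of_ne hb]
    · simp
  have h2 : ‖omL v (Pi.single j (Complex.I * v j))‖ ≤ ‖omL v‖ * ‖v j‖ := by
    refine ((omL v).le_opNorm _).trans ?_
    rw [Pi.norm_single]; simp
  rw [h1, Real.norm_of_nonneg (by positivity)] at h2
  by_cases h : ‖v j‖ = 0
  · rw [h]; positivity
  · have : 0 < ‖v j‖ := lt_of_le_of_ne (norm_nonneg _) (Ne.symm h)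
    nlinarith

/-- Poincare lemma: the pull-back of the Liouville form differs from it by an exact form. -/
lemma exists_primitive {χ : V → V} (hχ : ContDiff ℝ 2 χ) (hs : IsSymp χ) :
    ∃ g : V → ℝ, ∀ x, HasFDerivAt g ((omL (χ x)).comp (fderiv ℝ χ x) - omL x) x := by
  have hd : Differentiable ℝ χ := hχ.differentiable (by norm_num)
  have hd2 : Differentiable ℝ (fderiv ℝ χ) :=
    (hχ.fderiv_right (m := 1) (by norm_num)).differentiable (by norm_num)
  have key : ∀ x, HasFDerivAt (fun x => (omL (χ x)).comp (fderiv ℝ χ x) - omL x)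
      ((((ContinuousLinearMap.compL ℝ V V ℝ) (omL (χ x))).comp (fderiv ℝ (fderiv ℝ χ) x) +
        ((ContinuousLinearMap.compL ℝ V V ℝ).flip (fderiv ℝ χ x)).comp
          (omL.comp (fderiv ℝ χ x))) - omL) x := by
    intro x
    exact ((omL.hasFDerivAt.comp x (hd x).hasFDerivAt).clm_comp (hd2 x).hasFDerivAt).sub
      omL.hasFDerivAt
  obtain ⟨g, hg⟩ := (convex_univ (𝕜 := ℝ) (E := V)).exists_forall_hasFDerivAt_of_fderiv_symmetric
    isOpen_univ
    (fun x _ => (key x).differentiableAt.differentiableWithinAt) (by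
      intro a _ x y
      rw [(key a).fderiv]
      have hsym := (hχ.contDiffAt (x := a)).isSymmSndFDerivAt (by simp) x y
      simp only [sub_apply, add_apply,
        ContinuousLinearMap.comp_apply, ContinuousLinearMap.compL_apply,
        ContinuousLinearMap.flip_apply, omL_apply]
      rw [hs a x y, hs a y x, hsym]
      ring)
  exact ⟨g, fun x => hg x (mem_univ _)⟩

end Pool.Agent.Lib.MP_e888d6_gt
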